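import Pool.Agent.Y947.RL.Stm3
import Pool.Agent.Y26.RL.FX

/-!
# Project RL, job UTK: removing the twists at the primes dividing `m` exactly once (helper968)
-/

set_option autoImplicit false
set_option linter.all false

open Finset Polynomial Module Pool.Agent.Y947.DL Pool.Agent.Y947.RL Pool.Agent.Y26.RL

namespace Pool.Agent.Y968.RL

section
variable {K : Type} [Field K] [NumberField K]

/-- a twist which does not see `u` -/
theorem fix_twist {ζ γ : K} {m k u : ℕ} (hζ : ζ ^ m = 1) (hζ0 : ζ ≠ 0)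
    (hk : k * u ≡ k [MOD m]) : Fix ζ (ζ ^ k * γ) u ↔ Fix ζ γ u := by
  have key : ∀ σ τ : K →ₐ[ℚ] ℂ, τ ζ = (σ ζ) ^ u → (τ ζ) ^ k = (σ ζ) ^ k := by
    intro σ τ h
    rw [h, ← pow_mul, mul_comm u k]
    exact pow_eq_pow_of_modEq hk (by rw [← map_pow, hζ, map_one])
  have hne : ∀ σ : K →ₐ[ℚ] ℂ, (σ ζ) ^ k ≠ 0 := fun σ =>
    pow_ne_zero _ ((map_ne_zero_iff _ σ.toRingHom.injective).2 hζ0)
  constructor
  · intro h σ
    obtain ⟨τ, h1, h2⟩ := h σ
    refine ⟨τ, h1, ?_⟩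
    rw [map_mul, map_mul, map_pow, map_pow, key σ τ h1] at h2
    exact mul_left_cancel₀ (hne σ) h2
  · intro h σ
    obtain ⟨τ, h1, h2⟩ := h σ
    refine ⟨τ, h1, ?_⟩
    rw [map_mul, map_mul, map_pow, map_pow, key σ τ h1, h2]

/-- what fixes the `p`-th power multiplies by a `p`-th root of unity -/
theorem exists_tw {ζ α : K} {m p u : ℕ} (hm : 0 < m) (hζ : IsPrimitiveRoot ζ m) (hα : α ≠ 0)
    (hp : p.Prime) (hpm : p ∣ m) (h : Fix ζ (α ^ p) u) :
    ∃ j : ℕ, ∀ σ : K →ₐ[ℚ] ℂ, ∃ τ : K →ₐ[ℚ] ℂ, τ ζ = (σ ζ) ^ u ∧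
      τ α = (σ ζ) ^ (m / p * j) * σ α := by
  obtain ⟨σ₀⟩ : Nonempty (K →ₐ[ℚ] ℂ) := ⟨IsAlgClosed.lift⟩
  obtain ⟨τ₀, h1, h2⟩ := h σ₀
  have hσα : σ₀ α ≠ 0 := (map_ne_zero_iff _ σ₀.toRingHom.injective).2 hα
  have hpr : IsPrimitiveRoot (σ₀ ζ) m := hζ.map_of_injective σ₀.toRingHom.injective
  have hpr' : IsPrimitiveRoot ((σ₀ ζ) ^ (m / p)) p :=
    hpr.pow hm (Nat.div_mul_cancel hpm).symm
  have h3 : (τ₀ α / σ₀ α) ^ p = 1 := by
    rw [div_pow, ← map_pow, ← map_pow, h2, div_self]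
    rw [map_pow]
    exact pow_ne_zero _ hσα
  haveI : NeZero p := ⟨hp.ne_zero⟩
  obtain ⟨j, -, hj⟩ := hpr'.eq_pow_of_pow_eq_one h3
  refine ⟨j, fun σ => ?_⟩
  obtain ⟨τ, hτ⟩ := transport σ₀ τ₀ σ
  refine ⟨τ, hτ ζ ζ u h1, ?_⟩
  have h4 : τ₀ α = (σ₀ (ζ ^ (m / p * j) * α)) ^ 1 := by
    rw [pow_one, map_mul, map_pow, pow_mul, hj, div_mul_cancel₀ _ hσα]
  have h5 := hτ α (ζ ^ (m / p * j) * α) 1 h4
  rw [pow_one, map_mul, map_pow] at h5
  exact h5

/-- one prime dividing `m` exactly once -/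
theorem single {m : ℕ} {ζ α : K} (h : Ctx2 m ζ α) {p : ℕ} (hp : p.Prime) (hpm : p ∣ m)
    (hp2 : ¬ p ^ 2 ∣ m) : ∃ l : ℕ, ∀ u ∈ Gset m p, Fix ζ (α ^ p) u →
      Fix ζ (ζ ^ (m / p * l) * α) u := by
  haveI : Fact p.Prime := ⟨hp⟩
  set e := m / p with he
  have hme : p * e = m := Nat.mul_div_cancel' hpm
  have hm := h.hm
  have he0 : 0 < e := Nat.pos_of_ne_zero (by rintro h0; rw [h0, mul_zero] at hme; omega)
  have hpe : ¬ p ∣ e := by
    intro h1
    apply hp2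
    rw [← hme, pow_two]
    exact Nat.mul_dvd_mul_left p h1
  have hco : Nat.Coprime p e := (hp.coprime_iff_not_dvd).2 hpe
  have hζm : ζ ^ m = 1 := h.hζ.pow_eq_one
  have hζ0 : ζ ≠ 0 := h.hζ.ne_zero hm.ne'
  have hG : ∀ u ∈ Gset m p, u.Coprime m ∧ u ≡ 1 [MOD e] := by
    intro u hu
    unfold Gset at hu
    rw [mem_filter] at hu
    exact hu.2
  by_cases hv : ∃ v ∈ Gset m p, Fix ζ (α ^ p) v ∧ ¬ v ≡ 1 [MOD p]
  · obtain ⟨v, hvG, hvF, hv1⟩ := hv
    obtain ⟨j, hj⟩ := exists_tw hm h.hζ h.h0 hp hpm hvF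
    -- the exponent
    obtain ⟨l, hl⟩ : ∃ l : ℕ, j + v * l ≡ l [MOD p] := by
      have h1 : (1 : ZMod p) - (v : ZMod p) ≠ 0 := by
        intro h2
        apply hv1
        rw [← ZMod.natCast_eq_natCast_iff, Nat.cast_one]
        exact (sub_eq_zero.1 h2).symm
      refine ⟨((j : ZMod p) / (1 - (v : ZMod p))).val, ?_⟩
      rw [← ZMod.natCast_eq_natCast_iff, Nat.cast_add, Nat.cast_mul, ZMod.natCast_zmod_val]
      field_simp
      ring
    refine ⟨l, ?_⟩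
    set β := ζ ^ (e * l) * α with hβ
    have hpow1 : ∀ (σ : K →ₐ[ℚ] ℂ) (a b : ℕ), a ≡ b [MOD m] → (σ ζ) ^ a = (σ ζ) ^ b :=
      fun σ a b hab => pow_eq_pow_of_modEq hab (by rw [← map_pow, hζm, map_one])
    have hβσ : ∀ σ : K →ₐ[ℚ] ℂ, σ β = (σ ζ) ^ (e * l) * σ α := by
      intro σ
      rw [hβ, map_mul, map_pow]
    -- `v` fixes `β`
    have hvβ : Fix ζ β v := by
      intro σ
      obtain ⟨τ, h1, h2⟩ := hj σ
      refine ⟨τ, h1, ?_⟩
      rw [hβσ, hβσ, h1, h2, ← pow_mul, ← mul_assoc, ← pow_add]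
      congr 1
      apply hpow1
      have h3 := Nat.ModEq.mul_left' e hl
      rw [mul_comm e p, hme] at h3
      have h4 : v * (e * l) + e * j = e * (j + v * l) := by ring
      rw [h4]
      exact h3
    intro u huG huF
    have hβ0 : β ≠ 0 := mul_ne_zero (pow_ne_zero _ hζ0) h.h0
    have hβp : β ^ p = α ^ p := by
      rw [hβ, mul_pow, ← pow_mul]
      have h1 : e * l * p = m * l := by rw [← hme]; ring
      rw [h1, pow_mul, hζm, one_pow, one_mul]
    obtain ⟨i, hi⟩ := exists_tw (u := u) hm h.hζ hβ0 hp hpm (by rw [hβp]; exact huF)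
    have hpi : p ∣ i := by
      obtain ⟨σ⟩ : Nonempty (K →ₐ[ℚ] ℂ) := ⟨IsAlgClosed.lift⟩
      obtain ⟨τ₁, h1, h2⟩ := hvβ σ
      obtain ⟨τ₂, h3, h4⟩ := hi τ₁
      obtain ⟨τ₃, h5, h6⟩ := hi σ
      obtain ⟨τ₄, h7, h8⟩ := hvβ τ₃
      have hζeq : τ₂ ζ = τ₄ ζ := by
        rw [h3, h1, h7, h5, ← pow_mul, ← pow_mul, mul_comm]
      have h2' : τ₂ β = (σ ζ) ^ (v * (e * i)) * σ β := by
        rw [h4, h1, h2, ← pow_mul]
      have h4' : τ₄ β = (σ ζ) ^ (e * i) * σ β := by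
        rw [h8, h6]
      have hpp : ∀ a : ℕ, ((σ ζ) ^ (e * a)) ^ p = 1 := by
        intro a
        rw [← pow_mul]
        have h1 : e * a * p = m * a := by rw [← hme]; ring
        rw [h1, pow_mul, ← map_pow, hζm, map_one, one_pow]
      have hpeq : (τ₂ β) ^ p = (τ₄ β) ^ p := by
        rw [h2', h4', mul_pow, mul_pow, hpp i]
        have h9 : v * (e * i) = e * (v * i) := by ring
        rw [h9, hpp]
      have hαeq : τ₂ α = τ₄ α := by
        refine h.inj p hp.pos τ₂ τ₄ hζeq ?_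
        rw [hβσ, hβσ, hζeq, mul_pow, mul_pow] at hpeq
        have hne : ((τ₄ ζ) ^ (e * l)) ^ p ≠ 0 :=
          pow_ne_zero _ (pow_ne_zero _ ((map_ne_zero_iff _ τ₄.toRingHom.injective).2 hζ0))
        exact mul_left_cancel₀ hne hpeq
      have hβeq : τ₂ β = τ₄ β := by rw [hβσ, hβσ, hζeq, hαeq]
      have hσβ : σ β ≠ 0 := (map_ne_zero_iff _ σ.toRingHom.injective).2 hβ0
      have h9 : (σ ζ) ^ (v * (e * i)) = (σ ζ) ^ (e * i) := by
        rw [h2', h4'] at hβeq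
        exact mul_right_cancel₀ hσβ hβeq
      have hv0 : 0 < v := by
        rcases Nat.eq_zero_or_pos v with h0 | h0
        · exfalso
          have h10 := (hG v hvG).1
          rw [h0, Nat.coprime_zero_left] at h10
          have := hp.one_lt
          have := Nat.le_of_dvd hm hpm
          omega
        · exact h0
      obtain ⟨w, rfl⟩ : ∃ w, v = w + 1 := ⟨v - 1, by omega⟩
      have hσζ : (σ ζ) ^ (e * i) ≠ 0 :=
        pow_ne_zero _ ((map_ne_zero_iff _ σ.toRingHom.injective).2 hζ0)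
      have h10 : (σ ζ) ^ (w * (e * i)) = 1 := by
        have h11 : (σ ζ) ^ (w * (e * i)) * (σ ζ) ^ (e * i) = 1 * (σ ζ) ^ (e * i) := by
          rw [← pow_add, one_mul, ← h9]
          congr 1
          ring
        exact mul_right_cancel₀ hσζ h11
      have hpr : IsPrimitiveRoot (σ ζ) m := h.hζ.map_of_injective σ.toRingHom.injective
      have h12 := hpr.dvd_of_pow_eq_one _ h10
      rw [← hme] at h12
      have h13 : e * p ∣ e * (w * i) := by
        have h14 : w * (e * i) = e * (w * i) := by ring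
        rw [h14] at h12
        rw [mul_comm e p]
        exact h12
      have h15 := Nat.dvd_of_mul_dvd_mul_left he0 h13
      rcases (hp.dvd_mul).1 h15 with h16 | h16
      · exfalso
        apply hv1
        have : w + 1 ≡ 0 + 1 [MOD p] := ((Nat.modEq_zero_iff_dvd).2 h16).add_right 1
        simpa using this
      · exact h16
    intro σ
    obtain ⟨τ, h1, h2⟩ := hi σ
    refine ⟨τ, h1, ?_⟩
    rw [h2]
    obtain ⟨i', rfl⟩ := hpi
    have h3 : e * (p * i') = m * i' := by rw [← hme]; ring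
    rw [h3, pow_mul, ← map_pow, hζm, map_one, one_pow, one_mul]
  · push Not at hv
    refine ⟨0, fun u huG huF => ?_⟩
    rw [mul_zero, pow_zero, one_mul]
    have h1 := hv u huG huF
    have h2 := (hG u huG).2
    have h3 : u ≡ 1 [MOD p * e] := (Nat.modEq_and_modEq_iff_modEq_mul hco).1 ⟨h1, h2⟩
    rw [hme] at h3
    exact fix_congr hζm h3.symm (fix_one ζ α)

end

/-- a twist at another prime is not seen -/
theorem inv_modEq {m p q l u : ℕ} (hp : p.Prime) (hpm : p ∣ m) (hq : q.Prime) (hqm : q ∣ m)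
    (hpq : q ≠ p) (hu : u ≡ 1 [MOD m / p]) : m / q * l * u ≡ m / q * l [MOD m] := by
  have h1 : q ∣ m / p := by
    have h2 : q ∣ p * (m / p) := by rw [Nat.mul_div_cancel' hpm]; exact hqm
    exact (Nat.Coprime.dvd_mul_left ((Nat.coprime_primes hq hp).2 hpq)).1 h2
  have h3 : u ≡ 1 [MOD q] := hu.of_dvd h1
  have h4 := Nat.ModEq.mul_left' (m / q) h3
  rw [Nat.div_mul_cancel hqm, mul_one] at h4
  have h5 := h4.mul_left l
  have e1 : m / q * l * u = l * (m / q * u) := by ring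
  have e2 : m / q * l = l * (m / q) := by ring
  rw [e1, e2]
  exact h5

theorem sum_modEq {m u : ℕ} (s : Finset ℕ) (f : ℕ → ℕ) (h : ∀ q ∈ s, f q * u ≡ f q [MOD m]) :
    (∑ q ∈ s, f q) * u ≡ ∑ q ∈ s, f q [MOD m] := by
  classical
  induction s using Finset.induction_on with
  | empty => simp; exact Nat.ModEq.refl 0
  | insert a s ha ih =>
    rw [Finset.sum_insert ha, add_mul]
    exact (h a (Finset.mem_insert_self _ _)).add
      (ih fun q hq => h q (Finset.mem_insert_of_mem hq))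

theorem utk : S_TR → T_UTK := by
  intro _ K _ _ m ζ α h
  classical
  have hm := h.hm
  have hζm : ζ ^ m = 1 := h.hζ.pow_eq_one
  have hζ0 : ζ ≠ 0 := h.hζ.ne_zero hm.ne'
  have hex : ∀ p : ℕ, ∃ l : ℕ, p.Prime → p ∣ m → ¬ p ^ 2 ∣ m → ∀ u ∈ Gset m p,
      Fix ζ (α ^ p) u → Fix ζ (ζ ^ (m / p * l) * α) u := by
    intro p
    by_cases hp : p.Prime ∧ p ∣ m ∧ ¬ p ^ 2 ∣ m
    · obtain ⟨l, hl⟩ := single h hp.1 hp.2.1 hp.2.2
      exact ⟨l, fun _ _ _ => hl⟩
    · exact ⟨0, fun h1 h2 h3 => absurd ⟨h1, h2, h3⟩ hp⟩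
  choose l hl using hex
  set S := m.primeFactors.filter fun q => ¬ q ^ 2 ∣ m with hS
  have hSmem : ∀ q, q ∈ S ↔ q.Prime ∧ q ∣ m ∧ ¬ q ^ 2 ∣ m := by
    intro q
    rw [hS, Finset.mem_filter, Nat.mem_primeFactors]
    constructor
    · rintro ⟨⟨h1, h2, -⟩, h3⟩
      exact ⟨h1, h2, h3⟩
    · rintro ⟨h1, h2, h3⟩
      exact ⟨⟨h1, h2, hm.ne'⟩, h3⟩
  have hinv : ∀ p : ℕ, p.Prime → p ∣ m → ∀ u ∈ Gset m p, ∀ T : Finset ℕ, T ⊆ S → p ∉ T →
      (∑ q ∈ T, m / q * l q) * u ≡ ∑ q ∈ T, m / q * l q [MOD m] := by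
    intro p hp hpm u hu T hT hpT
    refine sum_modEq T _ fun q hq => ?_
    obtain ⟨h1, h2, h3⟩ := (hSmem q).1 (hT hq)
    unfold Gset at hu
    rw [Finset.mem_filter] at hu
    exact inv_modEq hp hpm h1 h2 (fun h4 => hpT (h4 ▸ hq)) hu.2.2
  refine ⟨∑ q ∈ S, m / q * l q, ?_, ?_⟩
  · intro p hp hpm hp2 u hu hF
    have hpS : p ∈ S := (hSmem p).2 ⟨hp, hpm, hp2⟩
    have hi := hinv p hp hpm u hu (S.erase p) (Finset.erase_subset _ _)
      (Finset.notMem_erase p S)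
    set k := ∑ q ∈ S.erase p, m / q * l q with hk
    have hsum : ∑ q ∈ S, m / q * l q = k + m / p * l p := by
      rw [hk, Finset.sum_erase_add _ _ hpS]
    rw [hsum] at hF ⊢
    have e1 : ζ ^ (k + m / p * l p) * α = ζ ^ k * (ζ ^ (m / p * l p) * α) := by
      rw [pow_add, mul_assoc]
    rw [e1] at hF ⊢
    rw [fix_twist hζm hζ0 hi]
    apply hl p hp hpm hp2 u hu
    have e2 : (ζ ^ k * (ζ ^ (m / p * l p) * α)) ^ p = ζ ^ (k * p) * α ^ p := by
      rw [mul_pow, mul_pow, ← pow_mul, ← pow_mul]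
      have e3 : m / p * l p * p = m * l p := by
        have := Nat.div_mul_cancel hpm
        calc m / p * l p * p = (m / p * p) * l p := by ring
          _ = m * l p := by rw [this]
      rw [e3, pow_mul ζ m, hζm, one_pow, one_mul]
    rw [e2] at hF
    have hi' : k * p * u ≡ k * p [MOD m] := by
      have h1 := hi.mul_right p
      have e4 : k * p * u = k * u * p := by ring
      rw [e4]
      exact h1
    exact (fix_twist hζm hζ0 hi').1 hF
  · intro p hp hp2 u hu hF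
    have hpm : p ∣ m := (dvd_pow_self p two_ne_zero).trans hp2
    have hpS : p ∉ S := fun h1 => ((hSmem p).1 h1).2.2 hp2
    have hi := hinv p hp hpm u hu S (Finset.Subset.refl _) hpS
    set k := ∑ q ∈ S, m / q * l q with hk
    rw [mul_pow, ← pow_mul] at hF
    have hi' : k * p * u ≡ k * p [MOD m] := by
      have h1 := hi.mul_right p
      have e4 : k * p * u = k * u * p := by ring
      rw [e4]
      exact h1
    exact (fix_twist hζm hζ0 hi').1 hF

end Pool.Agent.Y968.RL
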